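import Pool.Agent.H97.SD.Step2

/-!
# The parameters
-/

namespace Pool.Agent.H97.SD

open Finset Filter

/-- For `r < 1`, eventually `64 n^8 r^n ≤ 1`. -/
lemma evt_small {r : ℝ} (hr0 : 0 ≤ r) (hr : r < 1) :
    ∃ n₀ : ℕ, ∀ n : ℕ, n₀ ≤ n → 64 * ((n : ℝ) ^ 8 * r ^ n) ≤ 1 := by
  have h := tendsto_pow_const_mul_const_pow_of_abs_lt_one 8 (r := r)
    (by rw [abs_of_nonneg hr0]; exact hr)
  have h2 := h.eventually (gt_mem_nhds (show (0 : ℝ) < 1 / 64 by norm_num))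
  obtain ⟨n₀, hn₀⟩ := eventually_atTop.1 h2
  refine ⟨n₀, fun n hn => ?_⟩
  have := hn₀ n hn
  linarith

/-- The choice of the parameters. -/
lemma num_of_bounds {V : Type} [DecidableEq V] {H : Finset (Finset V)} {n : ℕ} (hn : 1 ≤ n)
    {b c : ℝ} (hb : 1 ≤ b) (hc : 1 ≤ c)
    (hbig : 64 * ((n : ℝ) ^ 8 * (c ^ 8 * b / 2) ^ n) ≤ 1)
    (hcard : ∀ e ∈ H, e.card = n)
    (hdeg : ∀ v, ((H.filter (fun e => v ∈ e)).card : ℝ) < c ^ n)
    (hH : (H.card : ℝ) < (2 : ℝ) ^ (b ^ n)) :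
    ∃ t k D, Num H n t k D := by
  classical
  set D := ⌊c ^ n⌋₊ with hD
  set k := ⌈b ^ n⌉₊ with hk
  have hcn : (1 : ℝ) ≤ c ^ n := one_le_pow₀ hc
  have hbn : (1 : ℝ) ≤ b ^ n := one_le_pow₀ hb
  have hDle : (D : ℝ) ≤ c ^ n := Nat.floor_le (by positivity)
  have hD1 : 1 ≤ D := by
    rw [hD]
    exact Nat.le_floor (by simpa using hcn)
  have hkge : b ^ n ≤ (k : ℝ) := Nat.le_ceil _
  have hkle : (k : ℝ) < b ^ n + 1 := Nat.ceil_lt_add_one (by positivity)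
  -- the number `X = n D`
  set X := n * D with hX
  have hX1 : 1 ≤ X := Nat.mul_pos hn hD1
  have hXle : (X : ℝ) ≤ n * c ^ n := by
    rw [hX]
    push_cast
    exact mul_le_mul_of_nonneg_left hDle (by positivity)
  -- the threshold
  set t := Nat.clog 2 (2 * X ^ 6) with ht
  have hX6 : 1 ≤ X ^ 6 := Nat.one_le_pow _ _ hX1
  have ht1 : 2 * X ^ 6 ≤ 2 ^ t := Nat.le_pow_clog (by norm_num) _
  have htpos : 1 ≤ t := by
    by_contra h
    have : t = 0 := by omega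
    rw [this] at ht1
    omega
  have ht2 : 2 ^ t < 4 * X ^ 6 := by
    have h1 : 2 ^ (t - 1) < 2 * X ^ 6 := by
      have := Nat.pow_pred_clog_lt_self (b := 2) (by norm_num) (x := 2 * X ^ 6) (by omega)
      simpa using this
    have h2 : 2 ^ t = 2 * 2 ^ (t - 1) := by
      rw [← pow_succ']
      congr 1
      omega
    omega
  -- the main numerical inequality
  have hmain : 8 * (k + 2) * X ^ 8 ≤ 2 ^ n := by
    have hk4 : ((k : ℝ) + 2) ≤ 4 * b ^ n := by linarith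
    have h1 : (8 * ((k : ℝ) + 2) * (X : ℝ) ^ 8) ≤ 8 * (4 * b ^ n) * (n * c ^ n) ^ 8 := by
      have : (X : ℝ) ^ 8 ≤ (n * c ^ n) ^ 8 := pow_le_pow_left₀ (by positivity) hXle 8
      gcongr
    have h2 : 8 * (4 * b ^ n) * ((n : ℝ) * c ^ n) ^ 8 ≤ 2 ^ n := by
      have h3 : 64 * ((n : ℝ) ^ 8 * (c ^ 8 * b / 2) ^ n) * 2 ^ n ≤ 1 * 2 ^ n :=
        mul_le_mul_of_nonneg_right hbig (by positivity)
      have h4 : 64 * ((n : ℝ) ^ 8 * (c ^ 8 * b / 2) ^ n) * 2 ^ n =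
          2 * (8 * (4 * b ^ n) * ((n : ℝ) * c ^ n) ^ 8) := by
        rw [div_pow, mul_pow, ← pow_mul, mul_pow, ← pow_mul, mul_comm 8 n]
        field_simp
        ring
      have h5 : 0 ≤ 8 * (4 * b ^ n) * ((n : ℝ) * c ^ n) ^ 8 := by positivity
      linarith
    have h6 : (8 * ((k : ℝ) + 2) * (X : ℝ) ^ 8) ≤ 2 ^ n := h1.trans h2
    exact_mod_cast h6
  have hX8 : X ^ 8 = X ^ 6 * X ^ 2 := by ring
  have hX2 : 1 ≤ X ^ 2 := Nat.one_le_pow _ _ hX1
  have htn : t < n := by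
    have h1 : 4 * X ^ 6 ≤ 8 * (k + 2) * X ^ 8 := by
      rw [hX8]
      calc 4 * X ^ 6 = 4 * 1 * (X ^ 6 * 1) := by ring
        _ ≤ 8 * (k + 2) * (X ^ 6 * X ^ 2) := by gcongr <;> omega
    exact (Nat.pow_lt_pow_iff_right (by norm_num : 1 < 2)).1 (ht2.trans_le (h1.trans hmain))
  refine ⟨t, k, D, hcard, ?_, htpos, htn, ?_, ?_⟩
  · intro v
    exact Nat.le_floor (hdeg v).le
  · -- big
    have hHk : H.card < 2 ^ k := by
      have h1 : (2 : ℝ) ^ (b ^ n) ≤ (2 : ℝ) ^ ((k : ℕ) : ℝ) :=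
        Real.rpow_le_rpow_of_exponent_le (by norm_num) hkge
      rw [Real.rpow_natCast] at h1
      have h2 : (H.card : ℝ) < 2 ^ k := hH.trans_le h1
      exact_mod_cast h2
    have hpos : 0 < (X ^ 3) ^ (2 * k) := by positivity
    calc 2 * (H.card * (X ^ 3) ^ (2 * k)) < 2 * (2 ^ k * (X ^ 3) ^ (2 * k)) := by
          have := Nat.mul_lt_mul_of_pos_right hHk hpos
          omega
      _ = 2 ^ (k + 1) * (X ^ 6) ^ k := by
          have h1 : (X ^ 3) ^ (2 * k) = (X ^ 6) ^ k := by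
            rw [← pow_mul, ← pow_mul]
            congr 1
            ring
          rw [h1, pow_succ 2 k]
          ring
      _ ≤ 2 ^ (k + 1) * (X ^ 6) ^ (k + 1) :=
          Nat.mul_le_mul_left _ (Nat.pow_le_pow_right hX6 (Nat.le_succ k))
      _ = (2 * X ^ 6) ^ (k + 1) := (mul_pow _ _ _).symm
      _ ≤ (2 ^ t) ^ (k + 1) := Nat.pow_le_pow_left ht1 _
      _ = 2 ^ ((k + 1) * t) := by
          rw [← pow_mul]
          congr 1
          ring
  · -- small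
    have h1 : 2 * (X * ((k + 1) * X + 1)) ≤ 2 * (k + 2) * X ^ 2 := by
      have : X * 1 ≤ X * X := Nat.mul_le_mul_left _ hX1
      nlinarith
    have h2 : 2 ^ n = 2 ^ t * 2 ^ (n - t) := by
      rw [← pow_add]
      congr 1
      omega
    by_contra hcon
    push Not at hcon
    have h3 : 2 ^ n < 8 * (k + 2) * X ^ 8 := by
      calc 2 ^ n = 2 ^ t * 2 ^ (n - t) := h2
        _ ≤ 2 ^ t * (2 * (k + 2) * X ^ 2) := Nat.mul_le_mul_left _ (hcon.trans h1)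
        _ < (4 * X ^ 6) * (2 * (k + 2) * X ^ 2) := by
            apply Nat.mul_lt_mul_of_pos_right ht2
            positivity
        _ = 8 * (k + 2) * X ^ 8 := by ring
    omega

end Pool.Agent.H97.SD
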