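import Pool.Agent.H97.SD.Walk

/-!
# The invariants of Breaker's strategy
-/

namespace Pool.Agent.H97.SD

open Finset

variable {V : Type} [DecidableEq V]

/-- The invariants of a position `(M, B)`, with the set `S` of moved points. -/
structure Inv (H : Finset (Finset V)) (t k : ℕ) (M B S : Finset V) : Prop where
  dis : Disjoint M B
  prim : ∀ A ∈ H, Disjoint A B → t ≤ (A ∩ (M \ S)).card → A ⊆ M ∪ S
  low : ∀ A ∈ H, Disjoint A B → (A ∩ (M \ S)).card ≤ t
  cov : ∀ s ∈ S, ∃ P ∈ H, s ∈ P ∧ t ≤ (P ∩ (M \ S)).card ∧ P ⊆ M ∪ S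
  big0 : pot (Un H (2 * k)) (M \ S) (B \ S) ≤ 2 * (Un H (2 * k)).card
  big1 : ∀ x, x ∉ M → x ∉ B → x ∉ S →
    pot (Un H (2 * k)) (insert x (M \ S)) (B \ S) ≤ 2 * (Un H (2 * k)).card
  small0 : ∀ C, Cl H S C → pot (ed H C) (M ∩ S) B ≤ 2 * (ed H C).card
  small1 : ∀ C, Cl H S C → ∀ x, x ∉ M → x ∉ B →
    pot (ed H C) (insert x (M ∩ S)) B ≤ 2 * (ed H C).card

/-- numerical conditions -/
structure Num (H : Finset (Finset V)) (n t k D : ℕ) : Prop where
  card : ∀ e ∈ H, e.card = n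
  deg : ∀ v, (H.filter (fun e => v ∈ e)).card ≤ D
  t1 : 1 ≤ t
  tn : t < n
  big : 2 * (H.card * ((n * D) ^ 3) ^ (2 * k)) < 2 ^ ((k + 1) * t)
  small : 2 * (n * D * (((k + 1) * (n * D)) + 1)) < 2 ^ (n - t)

lemma inv_init {H : Finset (Finset V)} {n t k D : ℕ} (hN : Num H n t k D) :
    Inv H t k ∅ ∅ ∅ := by
  have ht := hN.t1
  refine ⟨Finset.disjoint_empty_left _, ?_, ?_, ?_, ?_, ?_, ?_, ?_⟩
  · intro A _ _ h
    simp at h
    omega
  · intro A _ _
    simp
  · intro s hs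
    simp at hs
  · refine (pot_le_of_card (m := 0) ?_).trans ?_
    · intro A _
      simp
    · simp
      omega
  · intro x _ _ _
    refine (pot_le_of_card (m := 1) ?_).trans ?_
    · intro A _
      refine (Finset.card_le_card Finset.inter_subset_right).trans ?_
      simp
    · omega
  · intro C hC
    have h1 : C = ∅ := Finset.subset_empty.1 hC.1
    subst h1
    simp [ed, pot]
  · intro C hC x _ _
    have h1 : C = ∅ := Finset.subset_empty.1 hC.1
    subst h1
    simp [ed, pot]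

/-- The growth of a tree of disjoint primary edges. -/
lemma grow {H : Finset (Finset V)} {n t k D : ℕ} (hN : Num H n t k D) {M S C : Finset V}
    (hcov : ∀ s ∈ S, ∃ P ∈ H, s ∈ P ∧ t ≤ (P ∩ (M \ S)).card ∧ P ⊆ M ∪ S) {x : V}
    (hC : Cl H S C) (hxC : x ∈ C) (hmin : ∀ C', Cl H S C' → C' ⊆ C → C'.Nonempty → C ⊆ C')
    (hbig : (k + 1) * (n * D) < (H.filter (fun P => (P ∩ C).Nonempty ∧
      t ≤ (P ∩ (M \ S)).card ∧ P ⊆ M ∪ S)).card) (j : ℕ) (hj : j ≤ k) :
    ∃ l : List (Finset V), l.length = 2 * j + 1 ∧ l.IsChain (Adj H) ∧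
      l.toFinset ⊆ H.filter (fun P => (P ∩ C).Nonempty ∧ t ≤ (P ∩ (M \ S)).card ∧
        P ⊆ M ∪ S) ∧ l.toFinset.card = j + 1 ∧
      ∀ P ∈ l.toFinset, ∀ Q ∈ l.toFinset, P ≠ Q → Disjoint P Q := by
  classical
  set PC := H.filter (fun P => (P ∩ C).Nonempty ∧ t ≤ (P ∩ (M \ S)).card ∧ P ⊆ M ∪ S) with hPC
  have hcovC : ∀ s ∈ C, ∃ P ∈ PC, s ∈ P := by
    intro s hs
    obtain ⟨P, hP, hsP, h1, h2⟩ := hcov s (hC.1 hs)
    exact ⟨P, Finset.mem_filter.2 ⟨hP, ⟨s, Finset.mem_inter.2 ⟨hsP, hs⟩⟩, h1, h2⟩, hsP⟩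
  have hPCH : ∀ P ∈ PC, P ∈ H := fun P hP => (Finset.mem_filter.1 hP).1
  induction j with
  | zero =>
    obtain ⟨P, hP, -⟩ := hcovC x hxC
    refine ⟨[P], by simp, List.isChain_singleton P, ?_, by simp, ?_⟩
    · intro Q hQ
      simp only [List.toFinset_cons, List.toFinset_nil, Finset.mem_insert,
        Finset.notMem_empty, or_false] at hQ
      rw [hQ]; exact hP
    · intro P' hP' Q hQ hne
      simp only [List.toFinset_cons, List.toFinset_nil, Finset.mem_insert,
        Finset.notMem_empty, or_false] at hP' hQ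
      exact absurd (hP'.trans hQ.symm) hne
  | succ j ih =>
    obtain ⟨l, hl1, hl2, hl3, hl4, hl5⟩ := ih (by omega)
    set Q := l.toFinset with hQ
    set NQ := PC.filter (fun P => ∃ q ∈ Q, (q ∩ P).Nonempty) with hNQ
    have hself : ∀ P ∈ PC, (P ∩ P).Nonempty := by
      intro P hP
      rw [Finset.inter_self]
      obtain ⟨v, hv⟩ := (Finset.mem_filter.1 hP).2.1
      exact ⟨v, (Finset.mem_inter.1 hv).1⟩
    have hQN : Q ⊆ NQ := by
      intro q hq
      exact Finset.mem_filter.2 ⟨hl3 hq, q, hq, hself q (hl3 hq)⟩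
    have hNcard : NQ.card ≤ (j + 1) * (n * D) := by
      have h1 : NQ ⊆ Q.biUnion (meet H) := by
        intro P hP
        rw [Finset.mem_filter] at hP
        obtain ⟨q, hq, hqP⟩ := hP.2
        rw [Finset.mem_biUnion]
        exact ⟨q, hq, mem_meet.2 ⟨hPCH P hP.1, hqP⟩⟩
      refine (Finset.card_le_card h1).trans ?_
      rw [← hl4]
      apply Finset.card_biUnion_le_card_mul
      intro q hq
      exact card_meet hN.deg (hN.card q (hPCH q (hl3 hq))).le
    have hNlt : NQ.card < PC.card := by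
      refine lt_of_le_of_lt (hNcard.trans ?_) hbig
      exact Nat.mul_le_mul_right _ (by omega)
    -- a new primary edge
    obtain ⟨q, hq, P', hP', hP'N, hadj⟩ : ∃ q ∈ Q, ∃ P' ∈ PC, P' ∉ NQ ∧ Adj H q P' := by
      set Z := C.filter (fun z => ∃ P ∈ NQ, z ∈ P) with hZ
      by_cases hZC : C ⊆ Z
      · obtain ⟨P', hP', hP'N⟩ : ∃ P' ∈ PC, P' ∉ NQ := by
          by_contra hcon
          push Not at hcon
          exact absurd (Finset.card_le_card hcon) (by omega)
        obtain ⟨z, hz⟩ := (Finset.mem_filter.1 hP').2.1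
        rw [Finset.mem_inter] at hz
        obtain ⟨-, P, hPN, hzP⟩ := Finset.mem_filter.1 (hZC hz.2)
        obtain ⟨hPPC, q, hq, hqP⟩ := Finset.mem_filter.1 hPN
        refine ⟨q, hq, P', hP', hP'N, hPCH q (hl3 hq), hPCH P' hP', P, hPCH P hPPC, P,
          hPCH P hPPC, hqP, hself P hPPC, z, Finset.mem_inter.2 ⟨hzP, hz.1⟩⟩
      · have hZne : Z.Nonempty := by
          have hQne : Q.Nonempty := by rw [← Finset.card_pos]; omega
          obtain ⟨q, hq⟩ := hQne
          obtain ⟨z, hz⟩ := (Finset.mem_filter.1 (hl3 hq)).2.1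
          rw [Finset.mem_inter] at hz
          exact ⟨z, Finset.mem_filter.2 ⟨hz.2, q, hQN hq, hz.1⟩⟩
        have hncl : ¬ Cl H S Z := fun h => hZC (hmin Z h (Finset.filter_subset _ _) hZne)
        have hex : ∃ A ∈ H, (A ∩ Z).Nonempty ∧ ¬ A ∩ S ⊆ Z := by
          by_contra hcon
          push Not at hcon
          exact hncl ⟨(Finset.filter_subset _ _).trans hC.1, hcon⟩
        obtain ⟨A, hA, ⟨z, hz⟩, hnot⟩ := hex
        rw [Finset.mem_inter] at hz
        obtain ⟨z', hz'1, hz'2⟩ := Finset.not_subset.1 hnot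
        have hz'C : z' ∈ C := hC.2 A hA ⟨z, Finset.mem_inter.2
          ⟨hz.1, (Finset.mem_filter.1 hz.2).1⟩⟩ hz'1
        obtain ⟨P', hP', hz'P'⟩ := hcovC z' hz'C
        obtain ⟨-, P, hPN, hzP⟩ := Finset.mem_filter.1 hz.2
        obtain ⟨hPPC, q, hq, hqP⟩ := Finset.mem_filter.1 hPN
        have hP'N : P' ∉ NQ := fun h => hz'2 (Finset.mem_filter.2 ⟨hz'C, P', h, hz'P'⟩)
        exact ⟨q, hq, P', hP', hP'N, hPCH q (hl3 hq), hPCH P' hP', P, hPCH P hPPC, A, hA, hqP,
          ⟨z, Finset.mem_inter.2 ⟨hzP, hz.1⟩⟩,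
          ⟨z', Finset.mem_inter.2 ⟨(Finset.mem_inter.1 hz'1).1, hz'P'⟩⟩⟩
    obtain ⟨l', hl'1, hl'2, hl'3⟩ := exists_detour hl2 (List.mem_toFinset.1 hq) hadj
    have hP'Q : P' ∉ Q := fun h => hP'N (hQN h)
    have hdis : ∀ q ∈ Q, Disjoint q P' := by
      intro q hq
      rw [Finset.disjoint_iff_inter_eq_empty]
      by_contra hcon
      exact hP'N (Finset.mem_filter.2 ⟨hP', q, hq, Finset.nonempty_iff_ne_empty.2 hcon⟩)
    refine ⟨l', by omega, hl'2, ?_, ?_, ?_⟩
    · rw [hl'3]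
      exact Finset.insert_subset hP' hl3
    · rw [hl'3, Finset.card_insert_of_notMem hP'Q, hl4]
    · rw [hl'3]
      intro P hP R hR hne
      rw [Finset.mem_insert] at hP hR
      rcases hP with rfl | hP
      · rcases hR with rfl | hR
        · exact absurd rfl hne
        · exact (hdis R hR).symm
      · rcases hR with rfl | hR
        · exact hdis P hP
        · exact hl5 P hP R hR hne

/-- Components are small. -/
lemma small_ed {H : Finset (Finset V)} {n t k D : ℕ} (hN : Num H n t k D) {M B S : Finset V}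
    (hI : Inv H t k M B S) {x : V} {C : Finset V} (hC : Cl H S C) (hxC : x ∈ C)
    (hmin : ∀ C', Cl H S C' → x ∈ C' → C ⊆ C') : 2 * (ed H C).card < 2 ^ (n - t) := by
  classical
  set PC := H.filter (fun P => (P ∩ C).Nonempty ∧ t ≤ (P ∩ (M \ S)).card ∧ P ⊆ M ∪ S) with hPC
  have hmin' : ∀ C', Cl H S C' → C' ⊆ C → C'.Nonempty → C ⊆ C' := by
    intro C' hC' hsub hne
    by_cases hx : x ∈ C'
    · exact hmin C' hC' hx
    · have h1 := hmin (C \ C') (hC.sdiff hC') (Finset.mem_sdiff.2 ⟨hxC, hx⟩)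
      obtain ⟨v, hv⟩ := hne
      exact absurd hv (Finset.mem_sdiff.1 (h1 (hsub hv))).2
  have hPCcard : PC.card ≤ (k + 1) * (n * D) := by
    by_contra hcon
    push Not at hcon
    obtain ⟨l, hl1, hl2, hl3, hl4, hl5⟩ := grow hN hI.cov hC hxC hmin' hcon k le_rfl
    have hlH : ∀ P ∈ l, P ∈ H := fun P hP =>
      (Finset.mem_filter.1 (hl3 (List.mem_toFinset.2 hP))).1
    set U := l.toFinset.biUnion id with hU
    have hUn : U ∈ Un H (2 * k) := Finset.mem_image_of_mem _ (mem_Wf (2 * k) l hl1 hlH hl2)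
    have hUB : Disjoint U (B \ S) := by
      rw [Finset.disjoint_left]
      intro v hv hvB
      rw [hU, Finset.mem_biUnion] at hv
      obtain ⟨P, hP, hvP⟩ := hv
      rw [Finset.mem_sdiff] at hvB
      have h1 := (Finset.mem_filter.1 (hl3 hP)).2.2.2 hvP
      rw [Finset.mem_union] at h1
      rcases h1 with h1 | h1
      · exact Finset.disjoint_left.1 hI.dis h1 hvB.1
      · exact hvB.2 h1
    have hUcard : (k + 1) * t ≤ (U ∩ (M \ S)).card := by
      have h1 : U ∩ (M \ S) = l.toFinset.biUnion (fun P => P ∩ (M \ S)) := by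
        rw [hU, Finset.biUnion_inter]
        rfl
      rw [h1, Finset.card_biUnion]
      · rw [← hl4]
        calc l.toFinset.card * t = ∑ _P ∈ l.toFinset, t := by rw [Finset.sum_const, smul_eq_mul]
          _ ≤ _ := Finset.sum_le_sum fun P hP => (Finset.mem_filter.1 (hl3 hP)).2.2.1
      · intro P hP Q hQ hne
        exact Finset.disjoint_of_subset_left Finset.inter_subset_left
          (Finset.disjoint_of_subset_right Finset.inter_subset_left (hl5 P hP Q hQ hne))
    have h1 : 2 ^ ((k + 1) * t) ≤ pot (Un H (2 * k)) (M \ S) (B \ S) :=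
      (Nat.pow_le_pow_right (by norm_num) hUcard).trans (le_pot hUn hUB)
    have h2 := hI.big0
    have h3 := card_Un hN.card hN.deg (2 * k)
    have h4 := hN.big
    omega
  have hed : ed H C ⊆ (PC.biUnion id).biUnion (fun v => H.filter (fun e => v ∈ e)) := by
    intro A hA
    rw [mem_ed] at hA
    obtain ⟨v, hv⟩ := hA.2
    rw [Finset.mem_inter] at hv
    obtain ⟨P, hP, hvP, h1, h2⟩ := hI.cov v (hC.1 hv.2)
    rw [Finset.mem_biUnion]
    refine ⟨v, ?_, Finset.mem_filter.2 ⟨hA.1, hv.1⟩⟩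
    rw [Finset.mem_biUnion]
    exact ⟨P, Finset.mem_filter.2 ⟨hP, ⟨v, Finset.mem_inter.2 ⟨hvP, hv.2⟩⟩, h1, h2⟩, hvP⟩
  have h1 : (PC.biUnion id).card ≤ PC.card * n := by
    apply Finset.card_biUnion_le_card_mul
    intro P hP
    exact (hN.card P (Finset.mem_filter.1 hP).1).le
  have h2 : (ed H C).card ≤ (PC.card * n) * D := by
    refine (Finset.card_le_card hed).trans ?_
    refine (Finset.card_biUnion_le_card_mul _ _ D (fun v _ => hN.deg v)).trans ?_
    exact Nat.mul_le_mul_right _ h1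
  have h3 : PC.card * n * D ≤ (k + 1) * (n * D) * n * D :=
    Nat.mul_le_mul_right _ (Nat.mul_le_mul_right _ hPCcard)
  have h4 := hN.small
  have h5 : (k + 1) * (n * D) * n * D ≤ n * D * ((k + 1) * (n * D) + 1) := by
    have : (k + 1) * (n * D) * n * D = n * D * ((k + 1) * (n * D)) := by ring
    rw [this]
    exact Nat.mul_le_mul_left _ (Nat.le_succ _)
  omega

end Pool.Agent.H97.SD
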