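import Mathlib

/-!
# Potentials for positional games (Erdős–Selfridge)
-/

namespace Pool.Agent.H97.SD

open Finset

variable {V : Type} [DecidableEq V]

/-- The potential of the family `F`, when Maker owns `X` and Breaker owns `B`. -/
def pot (F : Finset (Finset V)) (X B : Finset V) : ℕ :=
  ∑ A ∈ F.filter (fun A => Disjoint A B), 2 ^ (A ∩ X).card

/-- The danger of the point `x`. -/
def dng (F : Finset (Finset V)) (X B : Finset V) (x : V) : ℕ :=
  ∑ A ∈ F.filter (fun A => Disjoint A B ∧ x ∈ A), 2 ^ (A ∩ X).card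

lemma pot_insert (F : Finset (Finset V)) {X : Finset V} (B : Finset V) {x : V} (hx : x ∉ X) :
    pot F (insert x X) B = pot F X B + dng F X B x := by
  unfold pot dng
  have h1 : F.filter (fun A => Disjoint A B ∧ x ∈ A) =
      (F.filter (fun A => Disjoint A B)).filter (fun A => x ∈ A) := by
    rw [Finset.filter_filter]
  rw [h1, Finset.sum_filter (fun A => x ∈ A), ← Finset.sum_add_distrib]
  apply Finset.sum_congr rfl
  intro A _
  by_cases hxA : x ∈ A
  · rw [if_pos hxA, Finset.inter_insert_of_mem hxA, Finset.card_insert_of_notMem, pow_succ]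
    · ring
    · simp [hx]
  · rw [if_neg hxA, Finset.inter_insert_of_notMem hxA, add_zero]

lemma pot_insert_breaker (F : Finset (Finset V)) (X B : Finset V) (y : V) :
    pot F X (insert y B) + dng F X B y = pot F X B := by
  unfold pot dng
  have h1 : F.filter (fun A => Disjoint A B ∧ y ∈ A) =
      (F.filter (fun A => Disjoint A B)).filter (fun A => y ∈ A) := by
    rw [Finset.filter_filter]
  have h2 : F.filter (fun A => Disjoint A (insert y B)) =
      (F.filter (fun A => Disjoint A B)).filter (fun A => ¬ y ∈ A) := by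
    rw [Finset.filter_filter]
    apply Finset.filter_congr
    intro A _
    rw [Finset.disjoint_insert_right]
    tauto
  rw [h1, h2, add_comm]
  exact Finset.sum_filter_add_sum_filter_not _ _ _

lemma dng_anti (F : Finset (Finset V)) (X : Finset V) {B B' : Finset V} (h : B ⊆ B') (x : V) :
    dng F X B' x ≤ dng F X B x := by
  unfold dng
  apply Finset.sum_le_sum_of_subset
  intro A hA
  rw [Finset.mem_filter] at hA ⊢
  exact ⟨hA.1, Finset.disjoint_of_subset_right h hA.2.1, hA.2.2⟩

lemma pot_anti (F : Finset (Finset V)) (X : Finset V) {B B' : Finset V} (h : B ⊆ B') :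
    pot F X B' ≤ pot F X B := by
  unfold pot
  apply Finset.sum_le_sum_of_subset
  intro A hA
  rw [Finset.mem_filter] at hA ⊢
  exact ⟨hA.1, Finset.disjoint_of_subset_right h hA.2⟩

lemma pot_union {F G : Finset (Finset V)} (h : Disjoint F G) (X B : Finset V) :
    pot (F ∪ G) X B = pot F X B + pot G X B := by
  unfold pot
  rw [Finset.filter_union, Finset.sum_union]
  exact Finset.disjoint_filter_filter h

lemma pot_congr {F : Finset (Finset V)} {X X' : Finset V} (B : Finset V)
    (h : ∀ A ∈ F, A ∩ X = A ∩ X') : pot F X B = pot F X' B := by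
  unfold pot
  apply Finset.sum_congr rfl
  intro A hA
  rw [h A (Finset.mem_filter.1 hA).1]

lemma le_pot {F : Finset (Finset V)} {X B A : Finset V} (hA : A ∈ F) (hd : Disjoint A B) :
    2 ^ (A ∩ X).card ≤ pot F X B := by
  unfold pot
  exact Finset.single_le_sum (f := fun A => 2 ^ (A ∩ X).card) (fun _ _ => Nat.zero_le _)
    (Finset.mem_filter.2 ⟨hA, hd⟩)

lemma pot_le_of_card {F : Finset (Finset V)} {X B : Finset V} {m : ℕ}
    (h : ∀ A ∈ F, (A ∩ X).card ≤ m) : pot F X B ≤ F.card * 2 ^ m := by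
  unfold pot
  calc ∑ A ∈ F.filter (fun A => Disjoint A B), 2 ^ (A ∩ X).card
      ≤ ∑ _A ∈ F.filter (fun A => Disjoint A B), 2 ^ m := by
        apply Finset.sum_le_sum
        intro A hA
        exact Nat.pow_le_pow_right (by norm_num) (h A (Finset.mem_filter.1 hA).1)
    _ = (F.filter (fun A => Disjoint A B)).card * 2 ^ m := by rw [Finset.sum_const, smul_eq_mul]
    _ ≤ F.card * 2 ^ m := Nat.mul_le_mul_right _ (Finset.card_filter_le _ _)

/-- The Erdős–Selfridge step. -/
lemma es_step {F : Finset (Finset V)} {X B : Finset V} {b : ℕ} {y : V} (hb : pot F X B ≤ b)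
    {Av : Finset V} (hmax : ∀ z ∈ Av, dng F X B z ≤ dng F X B y) :
    pot F X (insert y B) ≤ b ∧ ∀ z ∈ Av, z ∉ X → pot F (insert z X) (insert y B) ≤ b := by
  have h1 := pot_insert_breaker F X B y
  refine ⟨by omega, fun z hz hzX => ?_⟩
  rw [pot_insert F _ hzX]
  have h2 := dng_anti F X (Finset.subset_insert y B) z
  have h3 := hmax z hz
  omega

/-! ### Closed sets -/

/-- `C` is closed in `S`: no edge meets both `C` and `S \ C`. -/
def Cl (H : Finset (Finset V)) (S C : Finset V) : Prop :=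
  C ⊆ S ∧ ∀ A ∈ H, (A ∩ C).Nonempty → A ∩ S ⊆ C

/-- the edges which meet `C` -/
def ed (H : Finset (Finset V)) (C : Finset V) : Finset (Finset V) :=
  H.filter (fun A => (A ∩ C).Nonempty)

lemma mem_ed {H : Finset (Finset V)} {C A : Finset V} :
    A ∈ ed H C ↔ A ∈ H ∧ (A ∩ C).Nonempty := Finset.mem_filter

lemma Cl.inter {H : Finset (Finset V)} {S C C' : Finset V} (h : Cl H S C) (h' : Cl H S C') :
    Cl H S (C ∩ C') := by
  refine ⟨Finset.inter_subset_left.trans h.1, fun A hA hne => ?_⟩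
  have h1 : (A ∩ C).Nonempty := hne.mono (Finset.inter_subset_inter_left Finset.inter_subset_left)
  have h2 : (A ∩ C').Nonempty :=
    hne.mono (Finset.inter_subset_inter_left Finset.inter_subset_right)
  exact Finset.subset_inter (h.2 A hA h1) (h'.2 A hA h2)

lemma Cl.sdiff {H : Finset (Finset V)} {S C C' : Finset V} (h : Cl H S C) (h' : Cl H S C') :
    Cl H S (C \ C') := by
  refine ⟨Finset.sdiff_subset.trans h.1, fun A hA hne => ?_⟩
  have h1 : (A ∩ C).Nonempty := hne.mono (Finset.inter_subset_inter_left Finset.sdiff_subset)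
  have h3 := h.2 A hA h1
  intro v hv
  rw [Finset.mem_sdiff]
  refine ⟨h3 hv, fun hvC' => ?_⟩
  rw [Finset.mem_inter] at hv
  have h4 := h'.2 A hA ⟨v, Finset.mem_inter.2 ⟨hv.1, hvC'⟩⟩
  obtain ⟨w, hw⟩ := hne
  rw [Finset.mem_inter, Finset.mem_sdiff] at hw
  exact hw.2.2 (h4 (Finset.mem_inter.2 ⟨hw.1, h.1 hw.2.1⟩))

/-- The minimal closed set containing `x`. -/
lemma exists_min_cl (H : Finset (Finset V)) {S : Finset V} {x : V} (hx : x ∈ S) :
    ∃ C, Cl H S C ∧ x ∈ C ∧ ∀ C', Cl H S C' → x ∈ C' → C ⊆ C' := by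
  classical
  have hS : Cl H S S := ⟨subset_rfl, fun A _ _ => Finset.inter_subset_right⟩
  obtain ⟨C, hC, hmin⟩ := Finset.exists_min_image
    (S.powerset.filter (fun C => Cl H S C ∧ x ∈ C)) Finset.card
    ⟨S, Finset.mem_filter.2 ⟨Finset.mem_powerset_self S, hS, hx⟩⟩
  rw [Finset.mem_filter] at hC
  refine ⟨C, hC.2.1, hC.2.2, fun C' hC' hxC' => ?_⟩
  have h1 : Cl H S (C ∩ C') := hC.2.1.inter hC'
  have h2 := hmin (C ∩ C') (Finset.mem_filter.2 ⟨Finset.mem_powerset.2 h1.1, h1,
    Finset.mem_inter.2 ⟨hC.2.2, hxC'⟩⟩)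
  have h3 : C ∩ C' = C := Finset.eq_of_subset_of_card_le Finset.inter_subset_left h2
  rw [← h3]
  exact Finset.inter_subset_right

lemma ed_union {H : Finset (Finset V)} (C D : Finset V) :
    ed H (C ∪ D) = ed H C ∪ ed H D := by
  unfold ed
  rw [← Finset.filter_or]
  apply Finset.filter_congr
  intro A _
  rw [Finset.inter_union_distrib_left, Finset.union_nonempty]

lemma ed_disjoint {H : Finset (Finset V)} {S C D : Finset V} (hC : Cl H S C) (hD : D ⊆ S)
    (hCD : Disjoint C D) : Disjoint (ed H C) (ed H D) := by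
  rw [Finset.disjoint_left]
  intro A hA hA'
  rw [mem_ed] at hA hA'
  obtain ⟨v, hv⟩ := hA'.2
  rw [Finset.mem_inter] at hv
  exact Finset.disjoint_left.1 hCD (hC.2 A hA.1 hA.2 (Finset.mem_inter.2 ⟨hv.1, hD hv.2⟩)) hv.2

end Pool.Agent.H97.SD
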