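import Pool.Agent.H97.SD.Inv

/-!
# One round of the game
-/

namespace Pool.Agent.H97.SD

open Finset

variable {V : Type} [DecidableEq V]

/-- An edge without Breaker points has few Maker points in `S`. -/
lemma few_small {H : Finset (Finset V)} {n t k D : ℕ} (hN : Num H n t k D) {M B S : Finset V}
    (hI : Inv H t k M B S) {A : Finset V} (hA : A ∈ H) (hAB : Disjoint A B) :
    (A ∩ (M ∩ S)).card < n - t := by
  by_contra hcon
  push Not at hcon
  have htn := hN.tn
  have hne : (A ∩ (M ∩ S)).Nonempty := by
    rw [← Finset.card_pos]; omega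
  obtain ⟨s, hs⟩ := hne
  rw [Finset.mem_inter, Finset.mem_inter] at hs
  obtain ⟨C, hC, hsC, hmin⟩ := exists_min_cl H hs.2.2
  have h1 := hI.small0 C hC
  have h2 := small_ed hN hI hC hsC hmin
  have h3 : 2 ^ (A ∩ (M ∩ S)).card ≤ pot (ed H C) (M ∩ S) B :=
    le_pot (mem_ed.2 ⟨hA, s, Finset.mem_inter.2 ⟨hs.1, hsC⟩⟩) hAB
  have h4 : 2 ^ (n - t) ≤ 2 ^ (A ∩ (M ∩ S)).card := Nat.pow_le_pow_right (by norm_num) hcon
  omega

/-- Splitting a closed set. -/
lemma pot_split {H : Finset (Finset V)} {S C K : Finset V} (hC : Cl H S C) (hK : Cl H S K)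
    (X B : Finset V) :
    pot (ed H C) X B = pot (ed H (C ∩ K)) X B + pot (ed H (C \ K)) X B ∧
      (ed H C).card = (ed H (C ∩ K)).card + (ed H (C \ K)).card := by
  have h1 : C = (C ∩ K) ∪ (C \ K) := by
    ext v; simp only [Finset.mem_union, Finset.mem_inter, Finset.mem_sdiff]; tauto
  have hdis : Disjoint (ed H (C ∩ K)) (ed H (C \ K)) :=
    ed_disjoint (hC.inter hK) ((hC.sdiff hK).1) (by
      rw [Finset.disjoint_left]
      intro v hv hv'
      exact (Finset.mem_sdiff.1 hv').2 (Finset.mem_inter.1 hv).2)
  have h2 : ed H C = ed H (C ∩ K) ∪ ed H (C \ K) := by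
    rw [← ed_union, ← h1]
  constructor
  · rw [h2, pot_union hdis]
  · rw [h2, Finset.card_union_of_disjoint hdis]

variable [Fintype V]

/-- Case 1: Maker plays a point of `S`. -/
lemma step_small {H : Finset (Finset V)} {n t k D : ℕ} (hN : Num H n t k D) {M B S : Finset V}
    (hI : Inv H t k M B S) {x : V} (hxM : x ∉ M) (hxB : x ∉ B) (hxS : x ∈ S) :
    (∀ e ∈ H, ¬ e ⊆ insert x M) ∧ (insert x M ∪ B = univ ∨
      ∃ y, y ∉ insert x M ∧ y ∉ B ∧ Inv H t k (insert x M) (insert y B) S) := by
  classical
  have htn := hN.tn
  obtain ⟨C, hC, hxC, hmin⟩ := exists_min_cl H hxS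
  have hsm := small_ed hN hI hC hxC hmin
  have hMS : insert x M \ S = M \ S := Finset.insert_sdiff_of_mem _ hxS
  have hMS' : insert x M ∩ S = insert x (M ∩ S) := Finset.insert_inter_of_mem hxS
  have hpotC : pot (ed H C) (insert x (M ∩ S)) B ≤ 2 * (ed H C).card :=
    hI.small1 C hC x hxM hxB
  have hd1 : Disjoint (insert x M) B := by
    rw [Finset.disjoint_insert_left]
    exact ⟨hxB, hI.dis⟩
  refine ⟨?_, ?_⟩
  · intro A hA hAM
    have hAB : Disjoint A B := Finset.disjoint_of_subset_left hAM hd1
    have hlow := hI.low A hA hAB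
    have hcard := hN.card A hA
    have hsplit : A.card = (A ∩ (M \ S)).card + (A ∩ insert x (M ∩ S)).card := by
      rw [← Finset.card_union_of_disjoint]
      · congr 1
        ext v
        simp only [Finset.mem_union, Finset.mem_inter, Finset.mem_sdiff, Finset.mem_insert]
        constructor
        · intro hv
          have := hAM hv
          rw [Finset.mem_insert] at this
          rcases this with rfl | h
          · right; exact ⟨hv, Or.inl rfl⟩
          · by_cases hvS : v ∈ S
            · right; exact ⟨hv, Or.inr ⟨h, hvS⟩⟩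
            · left; exact ⟨hv, h, hvS⟩
        · tauto
      · rw [Finset.disjoint_left]
        intro v hv hv'
        simp only [Finset.mem_inter, Finset.mem_sdiff, Finset.mem_insert] at hv hv'
        rcases hv'.2 with rfl | h
        · exact hv.2.2 hxS
        · exact hv.2.2 h.2
    have h1 : n - t ≤ (A ∩ insert x (M ∩ S)).card := by omega
    by_cases hxA : x ∈ A
    · have h2 : 2 ^ (A ∩ insert x (M ∩ S)).card ≤ pot (ed H C) (insert x (M ∩ S)) B :=
        le_pot (mem_ed.2 ⟨hA, x, Finset.mem_inter.2 ⟨hxA, hxC⟩⟩) hAB
      have h3 : 2 ^ (n - t) ≤ 2 ^ (A ∩ insert x (M ∩ S)).card :=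
        Nat.pow_le_pow_right (by norm_num) h1
      omega
    · rw [Finset.inter_insert_of_notMem hxA] at h1
      have h2 := few_small hN hI hA hAB
      omega
  · by_cases hfull : insert x M ∪ B = univ
    · exact Or.inl hfull
    · right
      have hfree : (univ \ (insert x M ∪ B)).Nonempty := by
        rw [Finset.sdiff_nonempty]
        intro h
        exact hfull (Finset.eq_univ_iff_forall.2 fun v => h (Finset.mem_univ v))
      obtain ⟨y, hy, hymax⟩ := Finset.exists_max_image (univ \ (insert x M ∪ B))
        (dng (ed H C) (insert x (M ∩ S)) B) hfree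
      have hy1 : y ∉ insert x M := fun h => (Finset.mem_sdiff.1 hy).2 (Finset.mem_union_left _ h)
      have hy2 : y ∉ B := fun h => (Finset.mem_sdiff.1 hy).2 (Finset.mem_union_right _ h)
      obtain ⟨hes1, hes2⟩ := es_step hpotC hymax
      refine ⟨y, hy1, hy2, ?_, ?_, ?_, ?_, ?_, ?_, ?_, ?_⟩
      · rw [Finset.disjoint_insert_right]
        exact ⟨hy1, hd1⟩
      · intro A hA hAB ht
        rw [hMS] at ht
        exact (hI.prim A hA (Finset.disjoint_of_subset_right (Finset.subset_insert _ _) hAB) ht).trans
          (Finset.union_subset_union_left (Finset.subset_insert _ _))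
      · intro A hA hAB
        rw [hMS]
        exact hI.low A hA (Finset.disjoint_of_subset_right (Finset.subset_insert _ _) hAB)
      · intro s hs
        obtain ⟨P, hP, h1, h2, h3⟩ := hI.cov s hs
        refine ⟨P, hP, h1, ?_, ?_⟩
        · rw [hMS]; exact h2
        · exact h3.trans (Finset.union_subset_union_left (Finset.subset_insert _ _))
      · rw [hMS]
        exact (pot_anti _ _ (Finset.sdiff_subset_sdiff (Finset.subset_insert _ _)
          subset_rfl)).trans hI.big0
      · intro z hz1 hz2 hz3
        rw [hMS]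
        exact (pot_anti _ _ (Finset.sdiff_subset_sdiff (Finset.subset_insert _ _)
          subset_rfl)).trans (hI.big1 z (fun h => hz1 (Finset.mem_insert_of_mem h))
            (fun h => hz2 (Finset.mem_insert_of_mem h)) hz3)
      · -- small0
        intro C' hC'
        rw [hMS']
        obtain ⟨e1, e2⟩ := pot_split hC' hC (insert x (M ∩ S)) (insert y B)
        rw [e1, e2]
        have hD : Cl H S (C' \ C) := hC'.sdiff hC
        have hx1 : ∀ A ∈ ed H (C' \ C), x ∉ A := by
          intro A hA hxA
          rw [mem_ed] at hA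
          have := hD.2 A hA.1 hA.2 (Finset.mem_inter.2 ⟨hxA, hxS⟩)
          exact (Finset.mem_sdiff.1 this).2 hxC
        have h1 : pot (ed H (C' \ C)) (insert x (M ∩ S)) (insert y B) ≤
            2 * (ed H (C' \ C)).card := by
          rw [pot_congr (X' := M ∩ S) _ fun A hA => Finset.inter_insert_of_notMem (hx1 A hA)]
          exact (pot_anti _ _ (Finset.subset_insert _ _)).trans (hI.small0 _ hD)
        have h2 : pot (ed H (C' ∩ C)) (insert x (M ∩ S)) (insert y B) ≤
            2 * (ed H (C' ∩ C)).card := by
          by_cases hx' : x ∈ C'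
          · have h3 : C' ∩ C = C := Finset.inter_eq_right.2 (hmin C' hC' hx')
            rw [h3]; exact hes1
          · have h3 := hmin (C \ C') (hC.sdiff hC') (Finset.mem_sdiff.2 ⟨hxC, hx'⟩)
            have h4 : C' ∩ C = ∅ := by
              rw [Finset.eq_empty_iff_forall_notMem]
              intro v hv
              rw [Finset.mem_inter] at hv
              exact (Finset.mem_sdiff.1 (h3 hv.2)).2 hv.1
            rw [h4]; simp [ed, pot]
        omega
      · -- small1
        intro C' hC' z hz1 hz2
        rw [hMS']
        obtain ⟨e1, e2⟩ := pot_split hC' hC (insert z (insert x (M ∩ S))) (insert y B)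
        rw [e1, e2]
        have hD : Cl H S (C' \ C) := hC'.sdiff hC
        have hx1 : ∀ A ∈ ed H (C' \ C), x ∉ A := by
          intro A hA hxA
          rw [mem_ed] at hA
          have := hD.2 A hA.1 hA.2 (Finset.mem_inter.2 ⟨hxA, hxS⟩)
          exact (Finset.mem_sdiff.1 this).2 hxC
        have h1 : pot (ed H (C' \ C)) (insert z (insert x (M ∩ S))) (insert y B) ≤
            2 * (ed H (C' \ C)).card := by
          rw [pot_congr (X' := insert z (M ∩ S)) _ fun A hA => by
            rw [Finset.insert_comm, Finset.inter_insert_of_notMem (hx1 A hA)]]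
          exact (pot_anti _ _ (Finset.subset_insert _ _)).trans (hI.small1 _ hD z
            (fun h => hz1 (Finset.mem_insert_of_mem h)) (fun h => hz2 (Finset.mem_insert_of_mem h)))
        have h2 : pot (ed H (C' ∩ C)) (insert z (insert x (M ∩ S))) (insert y B) ≤
            2 * (ed H (C' ∩ C)).card := by
          by_cases hx' : x ∈ C'
          · have h3 : C' ∩ C = C := Finset.inter_eq_right.2 (hmin C' hC' hx')
            rw [h3]
            apply hes2 z
            · rw [Finset.mem_sdiff, Finset.mem_union]
              refine ⟨Finset.mem_univ _, ?_⟩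
              rintro (h | h)
              · exact hz1 h
              · exact hz2 (Finset.mem_insert_of_mem h)
            · rw [Finset.mem_insert, Finset.mem_inter]
              rintro (h | h)
              · exact hz1 (h ▸ Finset.mem_insert_self _ _)
              · exact hz1 (Finset.mem_insert_of_mem h.1)
          · have h3 := hmin (C \ C') (hC.sdiff hC') (Finset.mem_sdiff.2 ⟨hxC, hx'⟩)
            have h4 : C' ∩ C = ∅ := by
              rw [Finset.eq_empty_iff_forall_notMem]
              intro v hv
              rw [Finset.mem_inter] at hv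
              exact (Finset.mem_sdiff.1 (h3 hv.2)).2 hv.1
            rw [h4]; simp [ed, pot]
        omega

end Pool.Agent.H97.SD
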