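import Pool.Agent.H97.SD.Step

/-!
# One round of the game, second case, and the main theorem
-/

namespace Pool.Agent.H97.SD

open Finset

variable {V : Type} [DecidableEq V] [Fintype V]

/-- Case 2: Maker plays a point outside `S`. -/
lemma step_big {H : Finset (Finset V)} {n t k D : ℕ} (hN : Num H n t k D) {M B S : Finset V}
    (hI : Inv H t k M B S) {x : V} (hxM : x ∉ M) (hxB : x ∉ B) (hxS : x ∉ S) :
    (∀ e ∈ H, ¬ e ⊆ insert x M) ∧ (insert x M ∪ B = univ ∨
      ∃ y, y ∉ insert x M ∧ y ∉ B ∧ ∃ S', Inv H t k (insert x M) (insert y B) S') := by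
  classical
  have htn := hN.tn
  set M1 := insert x M with hM1
  have hd1 : Disjoint M1 B := by
    rw [Finset.disjoint_insert_left]
    exact ⟨hxB, hI.dis⟩
  set 𝒩 := H.filter (fun P => Disjoint P B ∧ t ≤ (P ∩ (M1 \ S)).card) with h𝒩
  set J := 𝒩.biUnion id \ (M1 ∪ S) with hJ
  set S1 := S ∪ J with hS1
  have hJM : ∀ v ∈ J, v ∉ M1 := fun v hv h =>
    (Finset.mem_sdiff.1 hv).2 (Finset.mem_union_left _ h)
  have hJS : ∀ v ∈ J, v ∉ S := fun v hv h =>
    (Finset.mem_sdiff.1 hv).2 (Finset.mem_union_right _ h)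
  have hJB : ∀ v ∈ J, v ∉ B := by
    intro v hv hvB
    obtain ⟨P, hP, hvP⟩ := Finset.mem_biUnion.1 (Finset.mem_sdiff.1 hv).1
    exact Finset.disjoint_left.1 (Finset.mem_filter.1 hP).2.1 hvP hvB
  have hMS1 : M1 \ S1 = insert x (M \ S) := by
    ext v
    simp only [hS1, Finset.mem_sdiff, Finset.mem_union, Finset.mem_insert, hM1]
    constructor
    · rintro ⟨h1, h2⟩
      rcases h1 with rfl | h1
      · exact Or.inl rfl
      · exact Or.inr ⟨h1, fun h => h2 (Or.inl h)⟩
    · rintro (rfl | ⟨h1, h2⟩)
      · refine ⟨Or.inl rfl, ?_⟩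
        rintro (h | h)
        · exact hxS h
        · exact hJM _ h (Finset.mem_insert_self _ _)
      · refine ⟨Or.inr h1, ?_⟩
        rintro (h | h)
        · exact h2 h
        · exact hJM v h (Finset.mem_insert_of_mem h1)
  have hMS0 : M1 \ S = insert x (M \ S) := Finset.insert_sdiff_of_notMem _ hxS
  have hMI : M1 ∩ S1 = M ∩ S := by
    ext v
    simp only [hS1, Finset.mem_inter, Finset.mem_union, hM1, Finset.mem_insert]
    constructor
    · rintro ⟨h1, h2⟩
      rcases h1 with rfl | h1
      · rcases h2 with h | h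
        · exact absurd h hxS
        · exact absurd (Finset.mem_insert_self _ _) (hJM _ h)
      · rcases h2 with h | h
        · exact ⟨h1, h⟩
        · exact absurd (Finset.mem_insert_of_mem h1) (hJM v h)
    · rintro ⟨h1, h2⟩
      exact ⟨Or.inr h1, Or.inl h2⟩
  have hBS : B \ S1 = B \ S := by
    ext v
    simp only [hS1, Finset.mem_sdiff, Finset.mem_union]
    constructor
    · rintro ⟨h1, h2⟩; exact ⟨h1, fun h => h2 (Or.inl h)⟩
    · rintro ⟨h1, h2⟩
      refine ⟨h1, ?_⟩
      rintro (h | h)
      · exact h2 h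
      · exact hJB v h h1
  have hlow1 : ∀ A ∈ H, Disjoint A B → (A ∩ (M1 \ S1)).card ≤ t := by
    intro A hA hAB
    rw [hMS1]
    by_cases hxA : x ∈ A
    · rw [Finset.inter_insert_of_mem hxA, Finset.card_insert_of_notMem]
      · have h1 := hI.low A hA hAB
        by_contra hcon
        have h2 : t ≤ (A ∩ (M \ S)).card := by omega
        have h3 := hI.prim A hA hAB h2 hxA
        rw [Finset.mem_union] at h3
        rcases h3 with h3 | h3
        · exact hxM h3
        · exact hxS h3
      · simp [hxM]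
    · rw [Finset.inter_insert_of_notMem hxA]
      exact hI.low A hA hAB
  have hprim1 : ∀ A ∈ H, Disjoint A B → t ≤ (A ∩ (M1 \ S1)).card → A ⊆ M1 ∪ S1 := by
    intro A hA hAB ht v hv
    by_cases h1 : v ∈ M1
    · exact Finset.mem_union_left _ h1
    · by_cases h2 : v ∈ S
      · exact Finset.mem_union_right _ (Finset.mem_union_left _ h2)
      · apply Finset.mem_union_right
        apply Finset.mem_union_right
        rw [hMS1, ← hMS0] at ht
        rw [hJ, Finset.mem_sdiff, Finset.mem_biUnion, Finset.mem_union]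
        exact ⟨⟨A, Finset.mem_filter.2 ⟨hA, hAB, ht⟩, hv⟩, by tauto⟩
  have hcov1 : ∀ s ∈ S1, ∃ P ∈ H, s ∈ P ∧ t ≤ (P ∩ (M1 \ S1)).card ∧ P ⊆ M1 ∪ S1 := by
    intro s hs
    rw [hS1, Finset.mem_union] at hs
    rcases hs with hs | hs
    · obtain ⟨P, hP, h1, h2, h3⟩ := hI.cov s hs
      refine ⟨P, hP, h1, h2.trans ?_, h3.trans ?_⟩
      · rw [hMS1]
        exact Finset.card_le_card (Finset.inter_subset_inter_left (Finset.subset_insert _ _))
      · exact Finset.union_subset_union (Finset.subset_insert _ _) Finset.subset_union_left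
    · obtain ⟨P, hP, hsP⟩ := Finset.mem_biUnion.1 (Finset.mem_sdiff.1 hs).1
      obtain ⟨hPH, hPB, ht⟩ := Finset.mem_filter.1 hP
      rw [hMS0, ← hMS1] at ht
      exact ⟨P, hPH, hsP, ht, hprim1 P hPH hPB ht⟩
  refine ⟨?_, ?_⟩
  · intro A hA hAM
    have hAB : Disjoint A B := Finset.disjoint_of_subset_left hAM hd1
    have h1 := hlow1 A hA hAB
    have h2 := few_small hN hI hA hAB
    have hcard := hN.card A hA
    have hsplit : A.card ≤ (A ∩ (M1 \ S1)).card + (A ∩ (M ∩ S)).card := by
      rw [← hMI]
      refine le_trans (Finset.card_le_card ?_) (Finset.card_union_le _ _)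
      intro v hv
      rw [Finset.mem_union, Finset.mem_inter, Finset.mem_inter, Finset.mem_sdiff,
        Finset.mem_inter]
      have := hAM hv
      tauto
    omega
  · by_cases hfull : M1 ∪ B = univ
    · exact Or.inl hfull
    · right
      -- Breaker's reply
      obtain ⟨y, hy1, hy2, hyb0, hyb1⟩ : ∃ y, y ∉ M1 ∧ y ∉ B ∧
          pot (Un H (2 * k)) (M1 \ S1) (insert y B \ S1) ≤ 2 * (Un H (2 * k)).card ∧
          ∀ z, z ∉ M1 → z ∉ insert y B → z ∉ S1 →
            pot (Un H (2 * k)) (insert z (M1 \ S1)) (insert y B \ S1) ≤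
              2 * (Un H (2 * k)).card := by
        have hb : pot (Un H (2 * k)) (M1 \ S1) (B \ S1) ≤ 2 * (Un H (2 * k)).card := by
          rw [hMS1, hBS]
          exact hI.big1 x hxM hxB hxS
        by_cases hG : (univ \ (M1 ∪ B ∪ S1)).Nonempty
        · obtain ⟨y, hy, hymax⟩ := Finset.exists_max_image (univ \ (M1 ∪ B ∪ S1))
            (dng (Un H (2 * k)) (M1 \ S1) (B \ S1)) hG
          have hy' : y ∉ M1 ∧ y ∉ B ∧ y ∉ S1 := by
            rw [Finset.mem_sdiff, Finset.mem_union, Finset.mem_union] at hy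
            tauto
          obtain ⟨hes1, hes2⟩ := es_step hb hymax
          have hBy : insert y B \ S1 = insert y (B \ S1) :=
            Finset.insert_sdiff_of_notMem _ hy'.2.2
          refine ⟨y, hy'.1, hy'.2.1, ?_, ?_⟩
          · rw [hBy]; exact hes1
          · intro z hz1 hz2 hz3
            rw [hBy]
            apply hes2 z
            · rw [Finset.mem_sdiff, Finset.mem_union, Finset.mem_union]
              refine ⟨Finset.mem_univ _, ?_⟩
              rintro ((h | h) | h)
              · exact hz1 h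
              · exact hz2 (Finset.mem_insert_of_mem h)
              · exact hz3 h
            · intro h
              exact hz1 (Finset.mem_sdiff.1 h).1
        · have hfree : ∃ y, y ∉ M1 ∪ B := by
            by_contra hcon
            push Not at hcon
            exact hfull (Finset.eq_univ_iff_forall.2 hcon)
          obtain ⟨y, hy⟩ := hfree
          rw [Finset.mem_union, not_or] at hy
          refine ⟨y, hy.1, hy.2, ?_, ?_⟩
          · exact (pot_anti _ _ (Finset.sdiff_subset_sdiff (Finset.subset_insert _ _)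
              subset_rfl)).trans hb
          · intro z hz1 hz2 hz3
            exfalso
            apply hG
            refine ⟨z, ?_⟩
            rw [Finset.mem_sdiff, Finset.mem_union, Finset.mem_union]
            refine ⟨Finset.mem_univ _, ?_⟩
            rintro ((h | h) | h)
            · exact hz1 h
            · exact hz2 (Finset.mem_insert_of_mem h)
            · exact hz3 h
      have hnew : ∀ C', Cl H S1 C' → Cl H S (C' ∩ S) ∧
          ed H C' = ed H (C' ∩ S) ∪ (ed H C' \ ed H (C' ∩ S)) ∧
          (ed H C').card = (ed H (C' ∩ S)).card + (ed H C' \ ed H (C' ∩ S)).card ∧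
          ∀ A ∈ ed H C' \ ed H (C' ∩ S), A ∩ (M ∩ S) = ∅ := by
        intro C' hC'
        have hsub : ed H (C' ∩ S) ⊆ ed H C' := by
          intro A hA
          rw [mem_ed] at hA ⊢
          exact ⟨hA.1, hA.2.mono (Finset.inter_subset_inter_left Finset.inter_subset_left)⟩
        have hcl : Cl H S (C' ∩ S) := by
          refine ⟨Finset.inter_subset_right, fun A hA hne => ?_⟩
          have h1 := hC'.2 A hA
            (hne.mono (Finset.inter_subset_inter_left Finset.inter_subset_left))
          intro v hv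
          rw [Finset.mem_inter] at hv ⊢
          exact ⟨h1 (Finset.mem_inter.2 ⟨hv.1, Finset.mem_union_left _ hv.2⟩), hv.2⟩
        refine ⟨hcl, ?_, ?_, ?_⟩
        · exact (Finset.union_sdiff_of_subset hsub).symm
        · have := Finset.card_sdiff_add_card_eq_card hsub
          omega
        · intro A hA
          rw [Finset.mem_sdiff, mem_ed, mem_ed] at hA
          rw [Finset.eq_empty_iff_forall_notMem]
          intro v hv
          rw [Finset.mem_inter, Finset.mem_inter] at hv
          apply hA.2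
          refine ⟨hA.1.1, v, Finset.mem_inter.2 ⟨hv.1, Finset.mem_inter.2 ⟨?_, hv.2.2⟩⟩⟩
          exact hC'.2 A hA.1.1 hA.1.2 (Finset.mem_inter.2 ⟨hv.1, Finset.mem_union_left _ hv.2.2⟩)
      refine ⟨y, hy1, hy2, S1, ?_, ?_, ?_, hcov1, hyb0, hyb1, ?_, ?_⟩
      · rw [Finset.disjoint_insert_right]
        exact ⟨hy1, hd1⟩
      · intro A hA hAB
        exact hprim1 A hA (Finset.disjoint_of_subset_right (Finset.subset_insert _ _) hAB)
      · intro A hA hAB
        exact hlow1 A hA (Finset.disjoint_of_subset_right (Finset.subset_insert _ _) hAB)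
      · intro C' hC'
        obtain ⟨h1, h2, h3, h4⟩ := hnew C' hC'
        rw [hMI]
        have h5 : pot (ed H C') (M ∩ S) (insert y B) =
            pot (ed H (C' ∩ S)) (M ∩ S) (insert y B) +
            pot (ed H C' \ ed H (C' ∩ S)) (M ∩ S) (insert y B) := by
          rw [← pot_union Finset.disjoint_sdiff, ← h2]
        have h6 : pot (ed H C' \ ed H (C' ∩ S)) (M ∩ S) (insert y B) ≤
            (ed H C' \ ed H (C' ∩ S)).card * 2 ^ 1 := by
          apply pot_le_of_card
          intro A hA
          rw [h4 A hA]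
          simp
        have h7 := (pot_anti (ed H (C' ∩ S)) (M ∩ S) (Finset.subset_insert y B)).trans
          (hI.small0 _ h1)
        omega
      · intro C' hC' z hz1 hz2
        obtain ⟨h1, h2, h3, h4⟩ := hnew C' hC'
        rw [hMI]
        have h5 : pot (ed H C') (insert z (M ∩ S)) (insert y B) =
            pot (ed H (C' ∩ S)) (insert z (M ∩ S)) (insert y B) +
            pot (ed H C' \ ed H (C' ∩ S)) (insert z (M ∩ S)) (insert y B) := by
          rw [← pot_union Finset.disjoint_sdiff, ← h2]
        have h6 : pot (ed H C' \ ed H (C' ∩ S)) (insert z (M ∩ S)) (insert y B) ≤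
            (ed H C' \ ed H (C' ∩ S)).card * 2 ^ 1 := by
          apply pot_le_of_card
          intro A hA
          have h8 : A ∩ insert z (M ∩ S) ⊆ {z} := by
            intro v hv
            rw [Finset.mem_inter, Finset.mem_insert] at hv
            rcases hv.2 with h | h
            · rw [h]; exact Finset.mem_singleton_self _
            · have : v ∈ A ∩ (M ∩ S) := Finset.mem_inter.2 ⟨hv.1, h⟩
              rw [h4 A hA] at this
              exact absurd this (Finset.notMem_empty _)
          refine (Finset.card_le_card h8).trans ?_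
          simp
        have h7 := (pot_anti (ed H (C' ∩ S)) (insert z (M ∩ S)) (Finset.subset_insert y B)).trans
          (hI.small1 _ h1 z (fun h => hz1 (Finset.mem_insert_of_mem h))
            (fun h => hz2 (Finset.mem_insert_of_mem h)))
        omega

/-- The second player has a Strong Draw. -/
theorem strong_draw {H : Finset (Finset V)} {n t k D : ℕ} (hN : Num H n t k D) :
    ∃ S : Set (Finset V × Finset V), ((∅ : Finset V), (∅ : Finset V)) ∈ S ∧
      ∀ p ∈ S, ∀ x : V, x ∉ p.1 → x ∉ p.2 →
        (∀ e ∈ H, ¬ e ⊆ insert x p.1) ∧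
        (insert x p.1 ∪ p.2 = Finset.univ ∨
          ∃ y : V, y ∉ insert x p.1 ∧ y ∉ p.2 ∧ (insert x p.1, insert y p.2) ∈ S) := by
  refine ⟨{p | ∃ S, Inv H t k p.1 p.2 S}, ⟨∅, inv_init hN⟩, ?_⟩
  rintro ⟨M, B⟩ ⟨S, hI⟩ x hxM hxB
  by_cases hxS : x ∈ S
  · obtain ⟨h1, h2⟩ := step_small hN hI hxM hxB hxS
    refine ⟨h1, h2.imp id ?_⟩
    rintro ⟨y, hy1, hy2, hI'⟩
    exact ⟨y, hy1, hy2, S, hI'⟩
  · obtain ⟨h1, h2⟩ := step_big hN hI hxM hxB hxS
    refine ⟨h1, h2.imp id ?_⟩
    rintro ⟨y, hy1, hy2, S', hI'⟩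
    exact ⟨y, hy1, hy2, S', hI'⟩

end Pool.Agent.H97.SD
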