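import Pool.Agent.H97.SD.Pot

/-!
# Walks in the intersection graph of a hypergraph
-/

namespace Pool.Agent.H97.SD

open Finset

variable {V : Type} [DecidableEq V]

/-- the edges which meet `q` -/
def meet (H : Finset (Finset V)) (q : Finset V) : Finset (Finset V) :=
  H.filter (fun A => (q ∩ A).Nonempty)

lemma mem_meet {H : Finset (Finset V)} {q A : Finset V} :
    A ∈ meet H q ↔ A ∈ H ∧ (q ∩ A).Nonempty := Finset.mem_filter

lemma card_meet {H : Finset (Finset V)} {n D : ℕ}
    (hD : ∀ v, (H.filter (fun e => v ∈ e)).card ≤ D) {q : Finset V} (hq : q.card ≤ n) :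
    (meet H q).card ≤ n * D := by
  have h1 : meet H q ⊆ q.biUnion (fun v => H.filter (fun e => v ∈ e)) := by
    intro A hA
    rw [mem_meet] at hA
    obtain ⟨v, hv⟩ := hA.2
    rw [Finset.mem_inter] at hv
    rw [Finset.mem_biUnion]
    exact ⟨v, hv.1, Finset.mem_filter.2 ⟨hA.1, hv.2⟩⟩
  calc (meet H q).card ≤ (q.biUnion (fun v => H.filter (fun e => v ∈ e))).card :=
        Finset.card_le_card h1
    _ ≤ q.card * D := Finset.card_biUnion_le_card_mul _ _ _ (fun v _ => hD v)
    _ ≤ n * D := Nat.mul_le_mul_right _ hq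

/-- adjacency: distance at most three in the intersection graph -/
def Adj (H : Finset (Finset V)) (q P : Finset V) : Prop :=
  q ∈ H ∧ P ∈ H ∧ ∃ A ∈ H, ∃ B ∈ H, (q ∩ A).Nonempty ∧ (A ∩ B).Nonempty ∧ (B ∩ P).Nonempty

lemma Adj.symm {H : Finset (Finset V)} {q P : Finset V} (h : Adj H q P) : Adj H P q := by
  obtain ⟨hq, hP, A, hA, B, hB, h1, h2, h3⟩ := h
  refine ⟨hP, hq, B, hB, A, hA, ?_, ?_, ?_⟩
  · rwa [Finset.inter_comm]
  · rwa [Finset.inter_comm]
  · rwa [Finset.inter_comm]

open Classical in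
/-- neighbours -/
noncomputable def nb (H : Finset (Finset V)) (q : Finset V) : Finset (Finset V) :=
  H.filter (fun P => Adj H q P)

lemma mem_nb {H : Finset (Finset V)} {q P : Finset V} : P ∈ nb H q ↔ Adj H q P := by
  classical
  unfold nb
  rw [Finset.mem_filter]
  exact ⟨fun h => h.2, fun h => ⟨h.2.1, h⟩⟩

lemma card_nb {H : Finset (Finset V)} {n D : ℕ} (hn : ∀ e ∈ H, e.card = n)
    (hD : ∀ v, (H.filter (fun e => v ∈ e)).card ≤ D) (q : Finset V) :
    (nb H q).card ≤ (n * D) ^ 3 := by
  classical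
  by_cases hq : q ∈ H
  · have h1 : nb H q ⊆ ((meet H q).biUnion (meet H)).biUnion (meet H) := by
      intro P hP
      rw [mem_nb] at hP
      obtain ⟨-, hPH, A, hA, B, hB, h1, h2, h3⟩ := hP
      rw [Finset.mem_biUnion]
      refine ⟨B, ?_, mem_meet.2 ⟨hPH, h3⟩⟩
      rw [Finset.mem_biUnion]
      exact ⟨A, mem_meet.2 ⟨hA, h1⟩, mem_meet.2 ⟨hB, h2⟩⟩
    have h2 : ((meet H q).biUnion (meet H)).card ≤ (n * D) * (n * D) := by
      refine (Finset.card_biUnion_le_card_mul _ _ (n * D) ?_).trans
        (Nat.mul_le_mul_right _ (card_meet hD (hn q hq).le))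
      intro A hA
      exact card_meet hD (hn A (mem_meet.1 hA).1).le
    calc (nb H q).card ≤ _ := Finset.card_le_card h1
      _ ≤ ((meet H q).biUnion (meet H)).card * (n * D) := by
          apply Finset.card_biUnion_le_card_mul
          intro A hA
          rw [Finset.mem_biUnion] at hA
          obtain ⟨B, _, hAB⟩ := hA
          exact card_meet hD (hn A (mem_meet.1 hAB).1).le
      _ ≤ (n * D) * (n * D) * (n * D) := Nat.mul_le_mul_right _ h2
      _ = (n * D) ^ 3 := by ring
  · have h1 : nb H q = ∅ := by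
      rw [Finset.eq_empty_iff_forall_notMem]
      intro P hP
      exact hq (mem_nb.1 hP).1
    rw [h1]
    simp

/-- walks with `L` steps -/
noncomputable def Wf (H : Finset (Finset V)) : ℕ → Finset (List (Finset V))
  | 0 => H.image (fun P => [P])
  | L + 1 => (Wf H L).biUnion (fun l => (nb H (l.headD ∅)).image (fun P => P :: l))

lemma card_Wf {H : Finset (Finset V)} {n D : ℕ} (hn : ∀ e ∈ H, e.card = n)
    (hD : ∀ v, (H.filter (fun e => v ∈ e)).card ≤ D) (L : ℕ) :
    (Wf H L).card ≤ H.card * ((n * D) ^ 3) ^ L := by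
  induction L with
  | zero =>
    rw [pow_zero, mul_one]
    exact Finset.card_image_le
  | succ L ih =>
    calc (Wf H (L + 1)).card = ((Wf H L).biUnion
            (fun l => (nb H (l.headD ∅)).image (fun P => P :: l))).card := rfl
      _ ≤ (Wf H L).card * (n * D) ^ 3 := by
          apply Finset.card_biUnion_le_card_mul
          intro l _
          exact Finset.card_image_le.trans (card_nb hn hD _)
      _ ≤ H.card * ((n * D) ^ 3) ^ L * (n * D) ^ 3 := Nat.mul_le_mul_right _ ih
      _ = _ := by rw [pow_succ]; ring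

lemma mem_Wf {H : Finset (Finset V)} (L : ℕ) : ∀ l : List (Finset V), l.length = L + 1 →
    (∀ P ∈ l, P ∈ H) → l.IsChain (Adj H) → l ∈ Wf H L := by
  induction L with
  | zero =>
    intro l hl hH _
    obtain ⟨P, rfl⟩ := List.length_eq_one_iff.1 hl
    exact Finset.mem_image_of_mem _ (hH P (by simp))
  | succ L ih =>
    intro l hl hH hc
    match l, hl, hH, hc with
    | P :: Q :: l', hl, hH, hc =>
      rw [List.isChain_cons_cons] at hc
      have h1 := ih (Q :: l') (by simpa using hl) (fun A hA => hH A (List.mem_cons_of_mem _ hA))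
        hc.2
      unfold Wf
      rw [Finset.mem_biUnion]
      refine ⟨Q :: l', h1, ?_⟩
      apply Finset.mem_image_of_mem
      rw [mem_nb]
      exact hc.1.symm

/-- insertion of a detour -/
lemma exists_detour {H : Finset (Finset V)} {l : List (Finset V)} (hc : l.IsChain (Adj H))
    {q P : Finset V} (hq : q ∈ l) (hqP : Adj H q P) :
    ∃ l' : List (Finset V), l'.length = l.length + 2 ∧ l'.IsChain (Adj H) ∧
      l'.toFinset = insert P l.toFinset := by
  obtain ⟨l₁, l₂, rfl⟩ := List.append_of_mem hq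
  refine ⟨l₁ ++ q :: P :: q :: l₂, ?_, ?_, ?_⟩
  · simp only [List.length_append, List.length_cons]
    omega
  · rw [List.isChain_split] at hc ⊢
    refine ⟨hc.1, ?_⟩
    rw [List.isChain_cons_cons, List.isChain_cons_cons]
    exact ⟨hqP, hqP.symm, hc.2⟩
  · ext A
    simp only [List.mem_toFinset, List.mem_append, List.mem_cons, Finset.mem_insert]
    tauto

/-- the unions of the edges visited by a walk with `L` steps -/
noncomputable def Un (H : Finset (Finset V)) (L : ℕ) : Finset (Finset V) :=
  (Wf H L).image (fun l => l.toFinset.biUnion id)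

lemma card_Un {H : Finset (Finset V)} {n D : ℕ} (hn : ∀ e ∈ H, e.card = n)
    (hD : ∀ v, (H.filter (fun e => v ∈ e)).card ≤ D) (L : ℕ) :
    (Un H L).card ≤ H.card * ((n * D) ^ 3) ^ L :=
  Finset.card_image_le.trans (card_Wf hn hD L)

end Pool.Agent.H97.SD
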